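import Mathlib
import Pool.Agent.Helper902.GPFin

set_option autoImplicit false

open Filter Topology
open scoped ZeroAtInfty

namespace Pool.Agent.Results.MP_d7d6c7_an.NoC0NotGP

/-- `X` contains an isomorphic copy of `c₀`: there is a bounded operator from `c₀` to `X` that is
bounded below. -/
def ContainsC0 (X : Type) [NormedAddCommGroup X] [NormedSpace ℝ X] : Prop :=
  ∃ (T : (ℕ →C₀ ℝ) →L[ℝ] X) (c : ℝ), 0 < c ∧ ∀ x, ‖x‖ ≤ c * ‖T x‖

/-- `C` is limited: every weak-star null sequence of functionals tends to `0` uniformly on `C`. -/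
def Limited {X : Type} [NormedAddCommGroup X] [NormedSpace ℝ X] (C : Set X) : Prop :=
  ∀ f : ℕ → (X →L[ℝ] ℝ), (∀ x : X, Tendsto (fun n => f n x) atTop (𝓝 0)) →
    ∀ ε : ℝ, 0 < ε → ∀ᶠ n in atTop, ∀ x ∈ C, |f n x| ≤ ε

/-- There is a real Banach space without an isomorphic copy of `c₀` that has a limited set which is
not relatively norm compact. -/
theorem result :
    ∃ (X : Type) (_ : NormedAddCommGroup X) (_ : NormedSpace ℝ X) (_ : CompleteSpace X),
      ¬ ContainsC0 X ∧ ∃ C : Set X, Limited C ∧ ¬ IsCompact (closure C) := by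
  refine ⟨Pool.Agent.Helper902.GP.X, inferInstance, inferInstance, inferInstance,
    Pool.Agent.Helper902.GP.no_c0, Set.range Pool.Agent.Helper902.GP.ee, ?_,
    Pool.Agent.Helper902.GP.not_compact⟩
  intro f h0 ε hε
  filter_upwards [Pool.Agent.Helper902.GP.limited f h0 ε hε] with n hn
  rintro _ ⟨m, rfl⟩
  exact hn m

end Pool.Agent.Results.MP_d7d6c7_an.NoC0NotGP
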